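import Pool.Agent.Q192.IA.Fin
import Pool.Agent.Q192.IA.Sep
import Pool.Agent.Q192.IA.LpS

/-!
# Isometric approximation of operators from uniformly smooth spaces into `C[0,1]`

For a uniformly smooth Banach space `X` (real or complex) the space of operators `X → C[0,1]` has
the isometric approximation property if and only if `X` is finite-dimensional or nonseparable; a
nonseparable `X` admits no `ε`-isometric operator into `C[0,1]` with `ε < 1` at all.  In particular
the property fails for `X = L^p[0,1]`, `1 < p < ∞`.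

Proof.  The dual `Y` of `X` is uniformly convex.  If `X` is separable and infinite-dimensional one
writes down a weak* continuous curve in `Y` near the unit sphere with an adversary: norm one
functionals `e_N → 0` (weak*), a zero-dimensional compact set of codes of a small ball of `Y`, and
at station `N` only the functionals `e_N + y` with `y` coded in a clopen set `A_N`, where `(A_N)`
enumerates all `η`-dense clopen sets of codes, each infinitely often; the curve is linear on the
gaps.  If an isometry were near, its curve restricted to the last station would hit a multiple of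
every small functional on every `η`-dense clopen set of codes.  Since `Y` is norm separable, some
small circle of functionals can be avoided by an `η`-dense clopen set of codes.
-/

open Filter Topology Set MeasureTheory Pool.Agent.Q192.IA

namespace Pool.Agent.Results.MP_4265c1_an.FiniteDimensionalOrNonseparable

lemma separable_of_eps {𝕜 X : Type*} [RCLike 𝕜] [NormedAddCommGroup X] [NormedSpace 𝕜 X]
    {ε : ℝ} (hε : ε < 1) {T : X →L[𝕜] C(unitInterval, 𝕜)} (hT : IsEpsIsometric ε T) :
    TopologicalSpace.SeparableSpace X := by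
  have h1 : AntilipschitzWith (Real.toNNReal (1 - ε)⁻¹) T := by
    refine AddMonoidHomClass.antilipschitz_of_bound T fun x => ?_
    have h2 := (hT x).1
    have h3 : 0 < 1 - ε := by linarith
    rw [Real.coe_toNNReal _ (by positivity), ← div_eq_inv_mul, le_div_iff₀ h3]
    linarith
  have h2 : Topology.IsInducing T := (h1.isUniformInducing T.uniformContinuous).isInducing
  have := h2.secondCountableTopology
  infer_instance

lemma iap_iff {𝕜 X : Type*} [RCLike 𝕜] [NormedAddCommGroup X] [NormedSpace 𝕜 X]
    (hX : UniformlySmooth 𝕜 X) :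
    IsometricApproximation 𝕜 X C(unitInterval, 𝕜) ↔
      FiniteDimensional 𝕜 X ∨ ¬ TopologicalSpace.SeparableSpace X := by
  constructor
  · rintro ⟨δ, -, hδ, h⟩
    by_contra hcon
    push Not at hcon
    obtain ⟨hinf, hsep⟩ := hcon
    obtain ⟨δ₀, hδ₀, η₀, hη₀, h1⟩ := sep_case hX hsep hinf
    have h2 : ∀ᶠ ε : ℝ in 𝓝[>] 0, δ ε < δ₀ := hδ.eventually (gt_mem_nhds hδ₀)
    have h3 : ∀ᶠ ε : ℝ in 𝓝[>] 0, ε < min η₀ 1 :=
      mem_nhdsWithin_of_mem_nhds (gt_mem_nhds (by positivity))
    have h4 : ∀ᶠ ε : ℝ in 𝓝[>] 0, 0 < ε := self_mem_nhdsWithin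
    obtain ⟨ε, h5, h6, h7⟩ := (h2.and (h3.and h4)).exists
    obtain ⟨T, hT, hT2⟩ := h1 ε h7 (h6.le.trans (min_le_left _ _))
    obtain ⟨V, hV, hTV⟩ := h ε ⟨h7, h6.trans_le (min_le_right _ _)⟩ T hT
    linarith [hT2 V hV]
  · rintro (h | h)
    · exact fin_iap hX
    · refine ⟨fun _ => 0, fun _ _ => le_rfl, tendsto_const_nhds, fun ε hε T hT => ?_⟩
      exact absurd (separable_of_eps hε.2 hT) h

theorem result :
    (∀ (𝕜 : Type*) [RCLike 𝕜] (X : Type*) [NormedAddCommGroup X] [NormedSpace 𝕜 X]
      [CompleteSpace X], UniformlySmooth 𝕜 X →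
        (IsometricApproximation 𝕜 X C(unitInterval, 𝕜) ↔
          FiniteDimensional 𝕜 X ∨ ¬ TopologicalSpace.SeparableSpace X) ∧
        (∀ ε < 1, ∀ T : X →L[𝕜] C(unitInterval, 𝕜), IsEpsIsometric ε T →
          TopologicalSpace.SeparableSpace X)) ∧
    (∀ (𝕜 : Type*) [RCLike 𝕜] (p : ℝ), 1 < p → ∀ [Fact (1 ≤ ENNReal.ofReal p)],
      ¬ IsometricApproximation 𝕜
        (Lp 𝕜 (ENNReal.ofReal p) (volume.restrict (Icc (0 : ℝ) 1))) C(unitInterval, 𝕜)) := by
  refine ⟨fun 𝕜 _ X _ _ _ hX => ⟨iap_iff hX, fun ε hε T hT => separable_of_eps hε hT⟩,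
    fun 𝕜 _ p hp _ h => ?_⟩
  rcases (iap_iff (lp_smooth hp)).1 h with h1 | h1
  · exact lp_infinite h1
  · haveI : Fact (ENNReal.ofReal p ≠ ⊤) := ⟨ENNReal.ofReal_ne_top⟩
    exact h1 inferInstance

end Pool.Agent.Results.MP_4265c1_an.FiniteDimensionalOrNonseparable
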